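import Pool.Agent.SGL.StmtsR
import Pool.Agent.Helper67_SGD.NSP

noncomputable section

namespace Pool.Agent.SGL.H2

open Pool.Agent.SGE Pool.Agent.SGP Pool.Agent.SGY Pool.Agent.SGD Pool.Agent.SGD.H67

theorem nsa : NsaStmt := by
  intro n T a E hE hi hT U x y z hxy hyz hzx hne hrel hxU hyU hzU hcl haU
  by_contra hno
  push Not at hno
  obtain ⟨hax, hay, haz⟩ := hno
  obtain ⟨x0, y0, hx0, hy0⟩ := inl_of hi hxy
  obtain ⟨z0, x1, hz0, _⟩ := inl_of hi hzx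
  subst hx0 hy0 hz0
  have h := hT x0 y0 z0 ((hE _ _).1 hxy) ((hE _ _).1 hyz) ((hE _ _).1 hzx)
    (fun e => hax (e ▸ rfl)) (fun e => hay (e ▸ rfl)) (fun e => haz (e ▸ rfl))
  obtain ⟨p, hp⟩ := hne
  obtain ⟨u0, hu0⟩ : ∃ u0, p = Sum.inl u0 := by
    rcases hrel p hp with ⟨q, hq⟩
    rcases inl_of hi hq with ⟨u, v, h1, _⟩
    exact ⟨u, h1⟩
  subst hu0
  have key : ∀ s : {v | v ≠ x0 ∧ v ≠ y0 ∧ v ≠ z0}, ∀ t : {v | v ≠ x0 ∧ v ≠ y0 ∧ v ≠ z0},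
      (T.induce {v | v ≠ x0 ∧ v ≠ y0 ∧ v ≠ z0}).Walk s t → Sum.inl s.1 ∈ U → Sum.inl t.1 ∈ U := by
    intro s t w
    induction w with
    | nil => exact id
    | @cons s t r hst _ ih =>
      intro hs
      apply ih
      have hst' : T.Adj s.1 t.1 := hst
      rcases hcl _ hs _ ((hE _ _).2 hst') with h1 | h1 | h1 | h1
      · exact h1
      · exact absurd (Sum.inl.inj h1) t.2.1
      · exact absurd (Sum.inl.inj h1) t.2.2.1
      · exact absurd (Sum.inl.inj h1) t.2.2.2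
  obtain ⟨w⟩ := h ⟨u0, fun e => hxU (e ▸ hp), fun e => hyU (e ▸ hp), fun e => hzU (e ▸ hp)⟩
    ⟨a, fun e => hax (e ▸ rfl), fun e => hay (e ▸ rfl), fun e => haz (e ▸ rfl)⟩
  exact haU (key _ _ w hp)

end Pool.Agent.SGL.H2
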