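import Pool.Agent.Helper2_SGL.RER
import Pool.Agent.Helper23_SGD.RLZ
import Pool.Agent.Helper34_SGD.CCR
import Pool.Agent.Helper70_SGD.GNZ

/-!
# Squad SGL: a maximal planar graph with a given corner
-/

noncomputable section

namespace Pool.Agent.SGL.H2

open Pool.Agent.SGE Pool.Agent.SGP Pool.Agent.SGY Pool.Agent.SGD

theorem rla_of (rlz : RlzStmt) : Rla0Stmt := by
  intro n T hn hT a
  obtain ⟨a0, b0, c0, E, F, h, hE, hi, hR⟩ := rlz T hn hT
  obtain ⟨b', c', F', h'⟩ := rer h (Sum.inl a) (hR a)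
  have h3 := nd3 h'
  have e1 : E b' (Sum.inl a) := (H5.bn2 h').2.1
  have e2 : E (Sum.inl a) c' := ((H5.bn2 h').1 _ _ ⟨[], [b'], rfl⟩).1
  obtain ⟨b, rfl⟩ : ∃ b, b' = Sum.inl b := by
    rcases b' with b | i
    · exact ⟨b, rfl⟩
    · exact absurd e1 (hi i _).1
  obtain ⟨c, rfl⟩ : ∃ c, c' = Sum.inl c := by
    rcases c' with c | i
    · exact ⟨c, rfl⟩
    · exact absurd e2 (hi i _).2
  exact ⟨b, c, E, F', h', hE, hi, hR⟩

theorem rla : Rla0Stmt := rla_of (H23.rlz H34.ccr H70.gnz)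

end Pool.Agent.SGL.H2
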