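import Pool.Agent.SGL.StmtsG
import Pool.Agent.Helper2_SGL.RLA
import Pool.Agent.Helper2_SGL.NSA

/-!
# Squad SGL: the row RLA of part G
-/

noncomputable section

namespace Pool.Agent.SGL.H2

open Pool.Agent.SGE Pool.Agent.SGP Pool.Agent.SGY Pool.Agent.SGD

theorem rlg : Pool.Agent.SGL.RlaStmt := by
  intro n T a hn hT hH
  obtain ⟨b, c, E, F, h, hE, hi, hR⟩ := rla T hn hT a
  exact ⟨b, c, E, F, h, hE, hi, hR, nsa T a E hE hi hH⟩

end Pool.Agent.SGL.H2
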