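import Pool.Agent.Helper59_SGD.Asm
import Pool.Agent.Helper73_SGY.Asm
import Pool.Agent.Helper2_SGL.RLG
import Pool.Agent.Helper70_SGL.ESP
import Pool.Agent.Helper71_SGL.BTP
import Pool.Agent.Helper28_SGL.RUN
import Pool.Agent.Helper60_SGL.LCT
import Pool.Agent.Helper16_SGL.PAT
import Pool.Agent.Helper69_SGL.PAB
import Pool.Agent.Helper91_SGL.RPT
import Pool.Agent.Helper34_SGL.XSL
import Pool.Agent.Helper57_SGL.XOR
import Pool.Agent.Helper62_SGL.RKS
import Pool.Agent.Helper21_SGL.LAY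
import Pool.Agent.Helper88_SGL.GGP
import Pool.Agent.Helper4_SGL.GFA
import Pool.Agent.Helper62_SGL.GIN
import Pool.Agent.Helper36_SGL.GDL
import Pool.Agent.Helper70_SGL.NXA
import Pool.Agent.Helper75_SGL.NXB
import Pool.Agent.Helper29_SGL.NXC
import Pool.Agent.Helper95_SGL.NXV
import Pool.Agent.Helper16_SGL.NXL
import Pool.Agent.Helper49_SGL.SML
import Pool.Agent.Helper66_SGL.MAT
import Pool.Agent.Helper11_SGL.FNL

/-!
# Squad SGL: assembly of theorem B
-/

noncomputable section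

namespace Pool.Agent.SGL.H2

open Pool.Agent.SGE Pool.Agent.SGP Pool.Agent.SGY Pool.Agent.SGD

theorem espB : EspStmt := H70.esp H77.bnd Pool.Agent.SGD.H70.sub H40.arc

theorem exgB : ExgStmt := H49.exg H59.clo H40.arc

theorem btpB : BtpStmt := H71.btp H77.bnd H5.bn2

theorem runB : RunStmt := H28.run exgB H97.ini espB btpB

theorem patB : PatStmt := H16.pat H40.arc H59.clo H60.lct

theorem rptB : RptStmt := H91.rpt patB H69.pab

theorem layB : LayStmt := H21.lay runB rptB (H57.xor H34.xsl) H62.rks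

theorem nxlB : NxlStmt := H16.nxl (H95.nxv H70.nxa H75.nxb H29.nxc)

theorem fnlB : FnlStmt :=
  H11.fnl layB rlg H88.ggp H4.gfa H62.gin H36.gdl nxlB H49.sig H66.mat H49.sml H95.fpl
    (Pool.Agent.SGP.H19.drw Pool.Agent.SGE.H99.seg) H70.gnz

end Pool.Agent.SGL.H2
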