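import Mathlib

/-!
# Squad SGL: every pattern on a pair of conjugate orders

`U`, `B` finite with the same number of elements, `p`, `t` two linear orders of `U`, `x`, `y` two linear
orders of `B` (all given by injective functions).  There is a bijection `f` such that for `p u < p v`:
if `t u < t v` then `x (f u) < x (f v)`, and if `t v < t u` then `y (f u) < y (f v)`.
-/

set_option autoImplicit false

noncomputable section

namespace Pool.Agent.SGL.H2

open Finset

/-- the records of `T` -/
theorem chain {U : Type} [Fintype U] (X p : U → ℤ) (hX : Function.Injective X)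
    (hp : Function.Injective p) (T : U → Prop) (i j : U)
    (hT : ∀ w, T w → X i < X w ∧ X w < X j ∧ p i < p w ∧ p w < p j) (hij : X i < X j)
    (hpij : p i < p j) :
    ∃ (A : U → Prop) (s : U → U), A i ∧ ¬ A j ∧ (∀ u, A u → u = i ∨ T u) ∧
      (∀ u, A u → (A (s u) ∨ s u = j) ∧ s u ≠ i ∧ X u < X (s u) ∧ p u < p (s u)) ∧
      (∀ u v, A u → A v → X u < X v → X (s u) ≤ X v) ∧
      (∀ u v, A u → A v → p u < p v → X u < X v) ∧
      (∀ u w, A u → T w → X w < X u → p w < p u) ∧
      (∀ u w, A u → T w → X u < X w → X w < X (s u) → p w < p u) := by
  classical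
  let A : U → Prop := fun u => u = i ∨ (T u ∧ ∀ w, T w → X w < X u → p w < p u)
  have hA : ∀ u, A u → X i ≤ X u ∧ X u < X j ∧ p i ≤ p u ∧ p u < p j := by
    rintro u (rfl | ⟨h, -⟩)
    · exact ⟨le_refl _, hij, le_refl _, hpij⟩
    · exact ⟨(hT u h).1.le, (hT u h).2.1, (hT u h).2.2.1.le, (hT u h).2.2.2⟩
  have hs : ∀ u, ∃ w, A u → ((A w ∨ w = j) ∧ X u < X w ∧
      ∀ z, (A z ∨ z = j) → X u < X z → X w ≤ X z) := by
    intro u
    by_cases hu : A u
    · have hne : (univ.filter fun w => (A w ∨ w = j) ∧ X u < X w).Nonempty :=
        ⟨j, by rw [mem_filter]; exact ⟨mem_univ _, Or.inr rfl, (hA u hu).2.1⟩⟩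
      obtain ⟨w, hw, hm⟩ := exists_min_image _ X hne
      rw [mem_filter] at hw
      refine ⟨w, fun _ => ⟨hw.2.1, hw.2.2, fun z hz hz2 => hm z ?_⟩⟩
      rw [mem_filter]
      exact ⟨mem_univ _, hz, hz2⟩
    · exact ⟨u, fun h => absurd h hu⟩
  choose s hs using hs
  have hrec : ∀ u w, A u → T w → X w < X u → p w < p u := by
    rintro u w (rfl | ⟨-, h⟩) hw hlt
    · exact absurd (hT w hw).1 (not_lt.2 hlt.le)
    · exact h w hw hlt
  have hgap : ∀ u w, A u → T w → X u < X w → X w < X (s u) → p w < p u := by
    intro u w hu hw h1 h2
    by_contra hcon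
    have hne : (univ.filter fun z => T z ∧ X u < X z ∧ p u < p z).Nonempty := by
      refine ⟨w, ?_⟩
      rw [mem_filter]
      refine ⟨mem_univ _, hw, h1, lt_of_le_of_ne (not_lt.1 hcon) ?_⟩
      intro h
      rw [hp h] at h1
      exact lt_irrefl _ h1
    obtain ⟨z, hz, hm⟩ := exists_min_image _ X hne
    rw [mem_filter] at hz
    have hzA : A z := by
      refine Or.inr ⟨hz.2.1, fun v hv hvz => ?_⟩
      rcases lt_trichotomy (X v) (X u) with h | h | h
      · exact (hrec u v hu hv h).trans hz.2.2.2
      · rw [hX h]
        exact hz.2.2.2
      · by_contra hc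
        have : X z ≤ X v := by
          apply hm
          rw [mem_filter]
          exact ⟨mem_univ _, hv, h, lt_of_lt_of_le hz.2.2.2 (not_lt.1 hc)⟩
        omega
    have h3 := (hs u hu).2.2 z (Or.inl hzA) hz.2.2.1
    have h4 : X z ≤ X w := by
      apply hm
      rw [mem_filter]
      refine ⟨mem_univ _, hw, h1, lt_of_le_of_ne (not_lt.1 hcon) ?_⟩
      intro h
      rw [hp h] at h1
      exact lt_irrefl _ h1
    omega
  refine ⟨A, s, Or.inl rfl, fun h => absurd (hA j h).2.1 (lt_irrefl _), ?_, ?_, ?_, ?_, hrec, hgap⟩
  · rintro u (h | ⟨h, -⟩)
    · exact Or.inl h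
    · exact Or.inr h
  · intro u hu
    obtain ⟨h1, h2, h3⟩ := hs u hu
    have hne : s u ≠ i := by
      intro h
      rw [h] at h2
      exact absurd (hA u hu).1 (not_le.2 h2)
    refine ⟨h1, hne, h2, ?_⟩
    rcases h1 with (h1 | ⟨h1, h4⟩) | h1
    · exact absurd h1 hne
    · rcases hu with hu | ⟨hu, -⟩
      · have h5 := (hT _ h1).2.2.1
        have h6 : p u = p i := by rw [hu]
        omega
      · exact h4 u hu h2
    · rw [h1]
      exact (hA u hu).2.2.2
  · intro u v hu hv h
    exact (hs u hu).2.2 v (Or.inl hv) h
  · intro u v hu hv h
    by_contra hc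
    have hlt : X v < X u := by
      refine lt_of_le_of_ne (not_lt.1 hc) ?_
      intro h'
      rw [hX h'] at h
      exact lt_irrefl _ h
    rcases hv with hv | ⟨hv, -⟩
    · have h1 := (hA u hu).2.2.1
      rw [hv] at h
      omega
    · have h1 := hrec u v hu hv hlt
      omega

/-- the condition during the process -/
def Cnd {U : Type} (p t X H : U → ℤ) : Prop :=
  ∀ u v, p u < p v → (t u < t v → X u < X v) ∧ (t v < t u → X v < X u → H u < H v)

/-- the move -/
theorem move {U : Type} [Fintype U] (p t X H : U → ℤ) (hp : Function.Injective p)
    (ht : Function.Injective t) (hX : Function.Injective X) (hH : Function.Injective H)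
    (hC : Cnd p t X H) (hbad : ∃ i j, p i < p j ∧ t j < t i ∧ X i < X j ∧ H j < H i) :
    ∃ σ : Equiv.Perm U, Cnd p t (fun u => X (σ u)) (fun u => H (σ u)) ∧
      ∑ u, t u * X u < ∑ u, t u * X (σ u) := by
  classical
  -- a bad pair of minimal width
  obtain ⟨i, j, hpij, htij, hXij, hHij, hmin⟩ : ∃ i j, p i < p j ∧ t j < t i ∧ X i < X j ∧
      H j < H i ∧ ∀ u v, p u < p v → t v < t u → X u < X v → H v < H u →
        X j - X i ≤ X v - X u := by
    have hne : (univ.filter fun w : U × U => p w.1 < p w.2 ∧ t w.2 < t w.1 ∧ X w.1 < X w.2 ∧
        H w.2 < H w.1).Nonempty := by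
      obtain ⟨i, j, h⟩ := hbad
      exact ⟨(i, j), by rw [mem_filter]; exact ⟨mem_univ _, h⟩⟩
    obtain ⟨w, hw, hm⟩ := exists_min_image _ (fun w : U × U => X w.2 - X w.1) hne
    rw [mem_filter] at hw
    refine ⟨w.1, w.2, hw.2.1, hw.2.2.1, hw.2.2.2.1, hw.2.2.2.2, fun u v h1 h2 h3 h4 => ?_⟩
    apply hm (u, v)
    rw [mem_filter]
    exact ⟨mem_univ _, h1, h2, h3, h4⟩
  -- the types
  let T1 : U → Prop := fun u => X i < X u ∧ X u < X j ∧ p i < p u ∧ p u < p j ∧ t i < t u ∧
    H u < H j
  let T2 : U → Prop := fun u => X i < X u ∧ X u < X j ∧ p i < p u ∧ p u < p j ∧ t u < t j ∧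
    H i < H u
  have hty : ∀ u, X i < X u → X u < X j → T1 u ∨ T2 u ∨ (p j < p u ∧ t u < t j ∧ H i < H u) ∨
      (p u < p i ∧ t i < t u ∧ H u < H j) := by
    intro u h1 h2
    have hui : u ≠ i := fun h => by rw [h] at h1; exact lt_irrefl _ h1
    have huj : u ≠ j := fun h => by rw [h] at h2; exact lt_irrefl _ h2
    have hpi : p u ≠ p i := fun h => hui (hp h)
    have hpj : p u ≠ p j := fun h => huj (hp h)
    have hti : t u ≠ t i := fun h => hui (ht h)
    have htj : t u ≠ t j := fun h => huj (ht h)
    have hHi : H u ≠ H i := fun h => hui (hH h)
    have hHj : H u ≠ H j := fun h => huj (hH h)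
    rcases lt_or_gt_of_ne hpi with hpi' | hpi'
    · -- `p u < p i`
      have h3 : t i < t u := by
        by_contra hc
        have := (hC u i hpi').1 (by omega)
        omega
      have h4 : H u < H j := by
        by_contra hc
        have := hmin u j (by omega) (by omega) h2 (by omega)
        omega
      exact Or.inr (Or.inr (Or.inr ⟨hpi', h3, h4⟩))
    · rcases lt_or_gt_of_ne hpj with hpj' | hpj'
      · rcases lt_or_gt_of_ne hti with hti' | hti'
        · -- `t u < t i`
          have h3 : H i < H u := by
            by_contra hc
            have := hmin i u (by omega) (by omega) h1 (by omega)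
            omega
          have h4 : t u < t j := by
            by_contra hc
            have := hmin u j (by omega) (by omega) h2 (by omega)
            omega
          exact Or.inr (Or.inl ⟨h1, h2, hpi', hpj', h4, h3⟩)
        · have h3 : H u < H j := by
            by_contra hc
            have := hmin u j (by omega) (by omega) h2 (by omega)
            omega
          exact Or.inl ⟨h1, h2, hpi', hpj', hti', h3⟩
      · have h3 : t u < t j := by
          by_contra hc
          have := (hC j u hpj').1 (by omega)
          omega
        have h4 : H i < H u := by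
          by_contra hc
          have := hmin i u (by omega) (by omega) h1 (by omega)
          omega
        exact Or.inr (Or.inr (Or.inl ⟨hpj', h3, h4⟩))
  obtain ⟨A, s, hAi, hAj, hA1, hA2, hA3, hA4, hA5, hA6⟩ := chain X p hX hp T1 i j
    (fun w hw => ⟨hw.1, hw.2.1, hw.2.2.1, hw.2.2.2.1⟩) hXij hpij
  obtain ⟨B, r, hBj, hBi, hB1, hB2, hB3, hB4, hB5, hB6⟩ := chain (fun u => - X u)
    (fun u => - p u) (fun a b h => hX (neg_injective h)) (fun a b h => hp (neg_injective h)) T2 j i
    (fun w hw => ⟨neg_lt_neg hw.2.1, neg_lt_neg hw.1, neg_lt_neg hw.2.2.2.1,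
      neg_lt_neg hw.2.2.1⟩) (neg_lt_neg hXij) (neg_lt_neg hpij)
  -- the data of `A` and `B`
  have hAd : ∀ u, A u → X i ≤ X u ∧ X u < X j ∧ p i ≤ p u ∧ p u < p j ∧ t i ≤ t u := by
    intro u hu
    rcases hA1 u hu with rfl | h
    · exact ⟨le_refl _, hXij, le_refl _, hpij, le_refl _⟩
    · exact ⟨h.1.le, h.2.1, h.2.2.1.le, h.2.2.2.1, h.2.2.2.2.1.le⟩
  have hBd : ∀ u, B u → X i < X u ∧ X u ≤ X j ∧ p i < p u ∧ p u ≤ p j ∧ t u ≤ t j := by
    intro u hu
    rcases hB1 u hu with rfl | h
    · exact ⟨hXij, le_refl _, hpij, le_refl _, le_refl _⟩
    · exact ⟨h.1, h.2.1.le, h.2.2.1, h.2.2.2.1.le, h.2.2.2.2.1.le⟩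
  have hAB : ∀ u, A u → ¬ B u := by
    intro u h1 h2
    have h3 := (hAd u h1).2.2.2.2
    have h4 := (hBd u h2).2.2.2.2
    omega
  have hAs : ∀ u, A u → X (s u) ≤ X j ∧ H (s u) ≤ H j := by
    intro u hu
    obtain ⟨h1, h2, -, -⟩ := hA2 u hu
    rcases h1 with h1 | h1
    · rcases hA1 _ h1 with h3 | h3
      · exact absurd h3 h2
      · exact ⟨h3.2.1.le, h3.2.2.2.2.2.le⟩
    · rw [h1]
      exact ⟨le_refl _, le_refl _⟩
  have hBs : ∀ u, B u → X i ≤ X (r u) ∧ H i ≤ H (r u) := by
    intro u hu
    obtain ⟨h1, h2, -, -⟩ := hB2 u hu
    rcases h1 with h1 | h1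
    · rcases hB1 _ h1 with h3 | h3
      · exact absurd h3 h2
      · exact ⟨h3.1.le, h3.2.2.2.2.2.le⟩
    · rw [h1]
      exact ⟨le_refl _, le_refl _⟩
  have hrX : ∀ u, B u → X (r u) < X u := fun u hu => neg_lt_neg_iff.1 (hB2 u hu).2.2.1
  have hrp : ∀ u, B u → p (r u) < p u := fun u hu => neg_lt_neg_iff.1 (hB2 u hu).2.2.2
  -- the permutation
  let g : U → U := fun u => if A u then s u else if B u then r u else u
  have gA : ∀ u, A u → g u = s u := fun u h => if_pos h
  have gB : ∀ u, B u → g u = r u := fun u h => by
    have h' : ¬ A u := fun h1 => hAB u h1 h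
    show (if A u then s u else if B u then r u else u) = r u
    rw [if_neg h', if_pos h]
  have gO : ∀ u, ¬ A u → ¬ B u → g u = u := fun u h h' => by
    show (if A u then s u else if B u then r u else u) = u
    rw [if_neg h, if_neg h']
  have hginj : Function.Injective g := by
    have key : ∀ u v, X u < X v → g u ≠ g v := by
      intro u v huv he
      by_cases hu : A u
      · rw [gA u hu] at he
        by_cases hv : A v
        · rw [gA v hv] at he
          have h1 := hA3 u v hu hv huv
          have h2 := (hA2 v hv).2.2.1
          rw [← he] at h2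
          omega
        · by_cases hv' : B v
          · rw [gB v hv'] at he
            have h1 := (hA2 u hu).1
            have h2 := (hB2 v hv').1
            rw [← he] at h2
            have h3 := (hA2 u hu).2.1
            have h4 := (hB2 v hv').2.1
            rw [← he] at h4
            rcases h1 with h1 | h1
            · rcases h2 with h2 | h2
              · exact hAB _ h1 h2
              · exact h3 h2
            · exact h4 h1
          · rw [gO v hv hv'] at he
            rcases (hA2 u hu).1 with h1 | h1
            · rw [he] at h1
              exact hv h1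
            · rw [he] at h1
              rw [h1] at hv'
              exact hv' hBj
      · by_cases hu' : B u
        · rw [gB u hu'] at he
          by_cases hv : A v
          · rw [gA v hv] at he
            have h1 := (hA2 v hv).1
            have h2 := (hB2 u hu').1
            rw [he] at h2
            have h3 := (hA2 v hv).2.1
            have h4 := (hB2 u hu').2.1
            rw [he] at h4
            rcases h1 with h1 | h1
            · rcases h2 with h2 | h2
              · exact hAB _ h1 h2
              · exact h3 h2
            · exact h4 h1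
          · by_cases hv' : B v
            · rw [gB v hv'] at he
              have h1 := hB3 v u hv' hu' (neg_lt_neg huv)
              have h2 := hrX u hu'
              rw [he] at h2
              have h1' : X u ≤ X (r v) := neg_le_neg_iff.1 h1
              omega
            · rw [gO v hv hv'] at he
              rcases (hB2 u hu').1 with h1 | h1
              · rw [he] at h1
                exact hv' h1
              · rw [he] at h1
                rw [h1] at hv
                exact hv hAi
        · rw [gO u hu hu'] at he
          by_cases hv : A v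
          · rw [gA v hv] at he
            rcases (hA2 v hv).1 with h1 | h1
            · rw [← he] at h1
              exact hu h1
            · rw [← he] at h1
              rw [h1] at hu'
              exact hu' hBj
          · by_cases hv' : B v
            · rw [gB v hv'] at he
              rcases (hB2 v hv').1 with h1 | h1
              · rw [← he] at h1
                exact hu' h1
              · rw [← he] at h1
                rw [h1] at hu
                exact hu hAi
            · rw [gO v hv hv'] at he
              rw [he] at huv
              exact lt_irrefl _ huv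
    intro u v he
    rcases lt_trichotomy (X u) (X v) with h | h | h
    · exact absurd he (key u v h)
    · exact hX h
    · exact absurd he.symm (key v u h)
  let σ : Equiv.Perm U := Equiv.ofBijective g (Finite.injective_iff_bijective.1 hginj)
  have hσ : ∀ u, σ u = g u := fun u => rfl
  refine ⟨σ, ?_, ?_⟩
  · intro u v huv
    show (t u < t v → X (σ u) < X (σ v)) ∧ (t v < t u → X (σ v) < X (σ u) → H (σ u) < H (σ v))
    rw [hσ, hσ]
    have huvne : u ≠ v := fun h => by rw [h] at huv; exact lt_irrefl _ huv
    by_cases hu : A u
    · rw [gA u hu]
      obtain ⟨u1, u2, u3, u4⟩ := hA2 u hu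
      obtain ⟨a1, a2, a3, a4, a5⟩ := hAd u hu
      obtain ⟨b1, b2⟩ := hAs u hu
      by_cases hv : A v
      · rw [gA v hv]
        have h1 := hA4 u v hu hv huv
        have h2 := hA3 u v hu hv h1
        have h3 := (hA2 v hv).2.2.1
        exact ⟨fun _ => by omega, fun _ h => by omega⟩
      · by_cases hv' : B v
        · rw [gB v hv']
          obtain ⟨c1, c2, c3, c4, c5⟩ := hBd v hv'
          obtain ⟨d1, d2⟩ := hBs v hv'
          exact ⟨fun h => by omega, fun _ _ => by omega⟩
        · rw [gO v hv hv']
          have hvs : X v ≠ X (s u) := by
            intro h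
            have h' := hX h
            rcases u1 with h1 | h1
            · rw [← h'] at h1
              exact hv h1
            · rw [← h'] at h1
              rw [h1] at hv'
              exact hv' hBj
          have hvi : v ≠ i := fun h => by rw [h] at hv; exact hv hAi
          have hXvi : X v ≠ X i := fun h => hvi (hX h)
          have hXvu : X v ≠ X u := fun h => huvne (hX h).symm
          have htvi : t v ≠ t i := fun h => hvi (ht h)
          refine ⟨fun h => ?_, fun h h' => ?_⟩
          · have h1 := (hC u v huv).1 h
            by_contra hc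
            have h2 : X v < X (s u) := by omega
            rcases hty v (by omega) (by omega) with h3 | h3 | h3 | h3
            · have := hA6 u v hu h3 h1 h2
              omega
            · have := h3.2.2.2.2.1
              omega
            · have := h3.2.1
              omega
            · have := h3.1
              omega
          · rcases lt_or_gt_of_ne hXvi with h1 | h1
            · have h2 : t v < t i := by
                by_contra hc
                have := (hC i v (by omega)).1 (by omega)
                omega
              have h3 := (hC i v (by omega)).2 h2 h1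
              omega
            · rcases hty v (by omega) (by omega) with h3 | h3 | h3 | h3
              · rcases lt_or_gt_of_ne hXvu with h4 | h4
                · have := hA5 u v hu h3 h4
                  omega
                · have := hA6 u v hu h3 h4 h'
                  omega
              · have := h3.2.2.2.2.2
                omega
              · have := h3.2.2
                omega
              · have := h3.1
                omega
    · by_cases hu' : B u
      · rw [gB u hu']
        obtain ⟨a1, a2, a3, a4, a5⟩ := hBd u hu'
        obtain ⟨b1, b2⟩ := hBs u hu'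
        have e1 := hrX u hu'
        have e2 := hrp u hu'
        by_cases hv : A v
        · rw [gA v hv]
          obtain ⟨c1, c2, c3, c4, c5⟩ := hAd v hv
          have h1 := (hC u v huv).1 (by omega)
          have h2 := (hA2 v hv).2.2.1
          exact ⟨fun _ => by omega, fun h => by omega⟩
        · by_cases hv' : B v
          · rw [gB v hv']
            have h1 : X u < X v := by
              by_contra hc
              have hne : X v ≠ X u := fun h => huvne (hX h).symm
              have h2 := hB4 v u hv' hu' (neg_lt_neg huv)
              have h3 : X u < X v := neg_lt_neg_iff.1 h2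
              omega
            have h2 := hB3 v u hv' hu' (neg_lt_neg h1)
            have h2' : X u ≤ X (r v) := neg_le_neg_iff.1 h2
            exact ⟨fun _ => by omega, fun _ h => by omega⟩
          · rw [gO v hv hv']
            refine ⟨fun h => ?_, fun h h' => ?_⟩
            · have h1 := (hC u v huv).1 h
              omega
            · have h1 : p (r u) < p v := by omega
              have hne : r u ≠ v := fun h2 => by rw [h2] at h1; exact lt_irrefl _ h1
              rcases lt_or_gt_of_ne (fun h2 => hne (ht h2) : t (r u) ≠ t v) with h2 | h2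
              · have := (hC (r u) v h1).1 h2
                omega
              · exact (hC (r u) v h1).2 h2 h'
      · rw [gO u hu hu']
        by_cases hv : A v
        · rw [gA v hv]
          obtain ⟨v1, v2, v3, v4⟩ := hA2 v hv
          refine ⟨fun h => ?_, fun h h' => ?_⟩
          · have h1 := (hC u v huv).1 h
            omega
          · have h1 : p u < p (s v) := by omega
            have hne : u ≠ s v := fun h2 => by rw [← h2] at h1; exact lt_irrefl _ h1
            rcases lt_or_gt_of_ne (fun h2 => hne (ht h2) : t u ≠ t (s v)) with h2 | h2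
            · have := (hC u (s v) h1).1 h2
              omega
            · exact (hC u (s v) h1).2 h2 h'
        · by_cases hv' : B v
          · rw [gB v hv']
            obtain ⟨c1, c2, c3, c4, c5⟩ := hBd v hv'
            obtain ⟨d1, d2⟩ := hBs v hv'
            have e1 := hrX v hv'
            have huj : u ≠ j := fun h => by rw [h] at hu'; exact hu' hBj
            have hXuj : X u ≠ X j := fun h => huj (hX h)
            have htuj : t u ≠ t j := fun h => huj (ht h)
            have hXuv : X u ≠ X v := fun h => huvne (hX h)
            have hus : X u ≠ X (r v) := by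
              intro h
              have h' := hX h
              rcases (hB2 v hv').1 with h1 | h1
              · rw [← h'] at h1
                exact hu' h1
              · rw [← h'] at h1
                rw [h1] at hu
                exact hu hAi
            refine ⟨fun h => ?_, fun h h' => ?_⟩
            · have h1 := (hC u v huv).1 h
              by_contra hc
              have h2 : X (r v) < X u := by omega
              rcases hty u (by omega) (by omega) with h3 | h3 | h3 | h3
              · have := h3.2.2.2.2.1
                omega
              · have h4 := hB6 v u hv' h3 (neg_lt_neg h1) (neg_lt_neg h2)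
                have h5 : p v < p u := neg_lt_neg_iff.1 h4
                omega
              · have := h3.1
                omega
              · have := h3.2.1
                omega
            · rcases lt_or_gt_of_ne hXuj with h1 | h1
              · rcases hty u (by omega) (by omega) with h3 | h3 | h3 | h3
                · have := h3.2.2.2.2.2
                  omega
                · rcases lt_or_gt_of_ne hXuv with h4 | h4
                  · have h5 := hB6 v u hv' h3 (neg_lt_neg h4) (neg_lt_neg h')
                    have h6 : p v < p u := neg_lt_neg_iff.1 h5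
                    omega
                  · have h5 := hB5 v u hv' h3 (neg_lt_neg h4)
                    have h6 : p v < p u := neg_lt_neg_iff.1 h5
                    omega
                · have := h3.1
                  omega
                · have := h3.2.2
                  omega
              · have h2 : t j < t u := by
                  by_contra hc
                  have := (hC u j (by omega)).1 (by omega)
                  omega
                have h3 := (hC u j (by omega)).2 h2 h1
                omega
          · rw [gO v hv hv']
            exact hC u v huv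
  · -- the sum
    have h0 : ∑ u, X (σ u) = ∑ u, X u := Equiv.sum_comp σ X
    have h1 : ∀ u, 0 ≤ (t u - t j) * (X (σ u) - X u) := by
      intro u
      by_cases hu : A u
      · have h2 : X u < X (σ u) := by
          rw [hσ, gA u hu]
          exact (hA2 u hu).2.2.1
        have h3 := (hAd u hu).2.2.2.2
        exact mul_nonneg (by omega) (by omega)
      · by_cases hu' : B u
        · have h2 : X (σ u) < X u := by
            rw [hσ, gB u hu']
            exact hrX u hu'
          have h3 := (hBd u hu').2.2.2.2
          exact mul_nonneg_of_nonpos_of_nonpos (by omega) (by omega)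
        · rw [hσ, gO u hu hu', sub_self, mul_zero]
    have h2 : 0 < (t i - t j) * (X (σ i) - X i) := by
      have h3 : X i < X (σ i) := by
        rw [hσ, gA i hAi]
        exact (hA2 i hAi).2.2.1
      exact mul_pos (by omega) (by omega)
    have h3 : 0 < ∑ u, (t u - t j) * (X (σ u) - X u) :=
      Finset.sum_pos' (fun u _ => h1 u) ⟨i, mem_univ _, h2⟩
    have h4 : ∑ u, (t u - t j) * (X (σ u) - X u) = ∑ u, t u * X (σ u) - ∑ u, t u * X u -
        t j * (∑ u, X (σ u) - ∑ u, X u) := by
      rw [mul_sub, Finset.mul_sum, Finset.mul_sum, ← Finset.sum_sub_distrib,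
        ← Finset.sum_sub_distrib, ← Finset.sum_sub_distrib]
      apply Finset.sum_congr rfl
      intro u _
      ring
    rw [h4, h0, sub_self, mul_zero, sub_zero] at h3
    omega

/-- **CNJ** -/
theorem cnj {U B : Type} [Fintype U] [Fintype B] (p t : U → ℤ) (x y : B → ℤ)
    (hp : Function.Injective p) (ht : Function.Injective t) (hx : Function.Injective x)
    (hy : Function.Injective y) (hUB : Fintype.card U = Fintype.card B) :
    ∃ f : U ≃ B, ∀ u v, p u < p v → (t u < t v → x (f u) < x (f v)) ∧
      (t v < t u → y (f u) < y (f v)) := by
  classical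
  -- the start
  obtain ⟨f₀, hf₀⟩ : ∃ f : U ≃ B, ∀ u v, p u < p v → x (f u) < x (f v) := by
    let _ : LinearOrder U := LinearOrder.lift' p hp
    let _ : LinearOrder B := LinearOrder.lift' x hx
    let e1 := monoEquivOfFin U rfl
    let e2 := monoEquivOfFin B hUB.symm
    refine ⟨(e1.symm.trans e2).toEquiv, fun u v h => ?_⟩
    have h1 : u < v := h
    exact (e1.symm.trans e2).lt_iff_lt.2 h1
  have hne : (univ.filter fun f : U ≃ B =>
      Cnd p t (fun u => x (f u)) (fun u => y (f u))).Nonempty := by
    refine ⟨f₀, ?_⟩
    rw [mem_filter]
    refine ⟨mem_univ _, fun u v h => ⟨fun _ => hf₀ u v h, fun _ h' => ?_⟩⟩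
    exact absurd h' (not_lt.2 (hf₀ u v h).le)
  obtain ⟨f, hf, hm⟩ := exists_max_image _ (fun f : U ≃ B => ∑ u, t u * x (f u)) hne
  rw [mem_filter] at hf
  refine ⟨f, fun u v h => ⟨(hf.2 u v h).1, fun h1 => ?_⟩⟩
  by_contra hc
  have huv : u ≠ v := fun h' => by rw [h'] at h; exact lt_irrefl _ h
  have hyne : y (f u) ≠ y (f v) := fun h' => huv (f.injective (hy h'))
  have hxne : x (f u) ≠ x (f v) := fun h' => huv (f.injective (hx h'))
  have hlt : x (f u) < x (f v) := by
    by_contra hc'
    exact hc ((hf.2 u v h).2 h1 (lt_of_le_of_ne (not_lt.1 hc') hxne.symm))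
  obtain ⟨σ, hσ, hσ'⟩ := move p t (fun u => x (f u)) (fun u => y (f u)) hp ht
    (fun a b h' => f.injective (hx h')) (fun a b h' => f.injective (hy h')) hf.2
    ⟨u, v, h, h1, hlt, lt_of_le_of_ne (not_lt.1 hc) hyne.symm⟩
  have h2 := hm (σ.trans f) (by rw [mem_filter]; exact ⟨mem_univ _, hσ⟩)
  exact absurd hσ' (not_lt.2 h2)

end Pool.Agent.SGL.H2
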