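import Mathlib

/-!
# LEX: linear extensions of an acyclic relation with a prescribed order on a subset

`R` is an acyclic relation on a finite type `V`, `i : U → V` is an injection, `X₀ : U → ℤ` is
injective and compatible with `TransGen R` on `U`.  Then there is an injective `X : V → ℤ` which
increases along `R` and orders `U` as `X₀` does.
-/

namespace Pool.Agent.SGL.H2

open Relation

/-- An acyclic relation on a finite type is increasing for an injective function to `ℤ`. -/
theorem lex0 {V : Type} [Fintype V] (S : V → V → Prop)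
    (hac : ∀ a, ¬ TransGen S a a) :
    ∃ X : V → ℤ, Function.Injective X ∧ ∀ a b, S a b → X a < X b := by
  classical
  have hpo : IsPartialOrder V (ReflTransGen S) :=
    { refl := fun a => ReflTransGen.refl
      trans := fun a b c h1 h2 => h1.trans h2
      antisymm := fun a b h1 h2 => by
        rcases reflTransGen_iff_eq_or_transGen.mp h1 with h | h
        · exact h.symm
        · exact absurd (h.trans_left h2) (hac a) }
  obtain ⟨s, hs, hrs⟩ := extend_partialOrder (ReflTransGen S)
  have hstr : ∀ a b, s a b → a ≠ b →
      (Finset.univ.filter (fun c => s c a)).card < (Finset.univ.filter (fun c => s c b)).card := by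
    intro a b hab hne
    apply Finset.card_lt_card
    refine ⟨?_, ?_⟩
    · intro c hc
      simp only [Finset.mem_filter, Finset.mem_univ, true_and] at hc ⊢
      exact hs.trans c a b hc hab
    · intro hsub
      have hb : b ∈ Finset.univ.filter (fun c => s c b) := by
        simp only [Finset.mem_filter, Finset.mem_univ, true_and]
        exact hs.refl b
      have := hsub hb
      simp only [Finset.mem_filter, Finset.mem_univ, true_and] at this
      exact hne (hs.antisymm a b hab this)
  refine ⟨fun a => ((Finset.univ.filter (fun c => s c a)).card : ℤ), ?_, ?_⟩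
  · intro a b h
    by_contra hne
    have h' : (Finset.univ.filter (fun c => s c a)).card
        = (Finset.univ.filter (fun c => s c b)).card := Int.ofNat_inj.mp h
    rcases hs.total a b with hab | hab
    · exact absurd h' (Nat.ne_of_lt (hstr a b hab hne))
    · exact absurd h'.symm (Nat.ne_of_lt (hstr b a hab (Ne.symm hne)))
  · intro a b hab
    have hne : a ≠ b := by
      intro h
      subst h
      exact hac a (TransGen.single hab)
    exact Int.ofNat_lt.mpr (hstr a b (hrs a b (ReflTransGen.single hab)) hne)

/-- **LEX.** -/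
theorem lex {U V : Type} [Fintype V] (R : V → V → Prop) (hac : ∀ a, ¬ TransGen R a a)
    (i : U → V) (hi : Function.Injective i) (X₀ : U → ℤ)
    (hX₀ : ∀ u v, TransGen R (i u) (i v) → X₀ u < X₀ v) :
    ∃ X : V → ℤ, Function.Injective X ∧ (∀ a b, R a b → X a < X b) ∧
      ∀ u v, X₀ u < X₀ v → X (i u) < X (i v) := by
  classical
  have hle : ∀ u v, ReflTransGen R (i u) (i v) → X₀ u ≤ X₀ v := by
    intro u v h
    rcases reflTransGen_iff_eq_or_transGen.mp h with h | h
    · exact le_of_eq (congrArg X₀ (hi h.symm))
    · exact (hX₀ u v h).le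
  let S : V → V → Prop := fun a b => R a b ∨ ∃ u v, a = i u ∧ b = i v ∧ X₀ u < X₀ v
  have key : ∀ a b, TransGen S a b → TransGen R a b ∨
      ∃ u v, ReflTransGen R a (i u) ∧ X₀ u < X₀ v ∧ ReflTransGen R (i v) b := by
    intro a b h
    induction h with
    | single h =>
      rcases h with h | ⟨u, v, rfl, rfl, h⟩
      · exact Or.inl (TransGen.single h)
      · exact Or.inr ⟨u, v, ReflTransGen.refl, h, ReflTransGen.refl⟩
    | tail _ h ih =>
      rcases h with h | ⟨u, v, rfl, rfl, h⟩
      · rcases ih with ih | ⟨u, v, h1, h2, h3⟩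
        · exact Or.inl (ih.tail h)
        · exact Or.inr ⟨u, v, h1, h2, h3.tail h⟩
      · rcases ih with ih | ⟨u', v', h1, h2, h3⟩
        · exact Or.inr ⟨u, v, ih.to_reflTransGen, h, ReflTransGen.refl⟩
        · exact Or.inr ⟨u', v, h1, lt_of_lt_of_le h2 ((hle _ _ h3).trans h.le), ReflTransGen.refl⟩
  have hacS : ∀ a, ¬ TransGen S a a := by
    intro a h
    rcases key a a h with h | ⟨u, v, h1, h2, h3⟩
    · exact hac a h
    · exact absurd (hle v u (h3.trans h1)) (not_le.mpr h2)
  obtain ⟨X, hX, hXS⟩ := lex0 S hacS
  exact ⟨X, hX, fun a b h => hXS a b (Or.inl h),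
    fun u v h => hXS _ _ (Or.inr ⟨u, v, rfl, rfl, h⟩)⟩

end Pool.Agent.SGL.H2
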