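import Pool.Agent.SGL.StmtsR
import Pool.Agent.Helper5_SGD.BN2
import Pool.Agent.Helper77_SGD.BND
import Pool.Agent.Helper77_SGP.ROT

/-!
# Squad SGL: re-rooting
-/

noncomputable section

namespace Pool.Agent.SGL.H2

open Pool.Agent.SGE Pool.Agent.SGP Pool.Agent.SGY Pool.Agent.SGD

variable {V : Type}

theorem chain_mono {R S : V → V → Prop} (h : ∀ x y, R x y → S x y) {l : List V}
    (hl : l.IsChain R) : l.IsChain S := hl.imp (fun x y => h x y)

/-- a cyclic list may be started at any element -/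
theorem cyc_start {R : V → V → Prop} {h : V} {t : List V} (hc : (h :: (t ++ [h])).IsChain R)
    (hn : (h :: t).Nodup) {v : V} (hv : v ∈ h :: t) :
    ∃ l, (v :: (l ++ [v])).IsChain R ∧ (v :: l).Nodup ∧ ∀ x, x ∈ v :: l ↔ x ∈ h :: t := by
  rcases List.mem_cons.1 hv with rfl | hv
  · exact ⟨t, hc, hn, fun x => Iff.rfl⟩
  · obtain ⟨l1, l2, rfl⟩ := List.append_of_mem hv
    refine ⟨l2 ++ h :: l1, ?_, ?_, ?_⟩
    · have e1 : h :: (l1 ++ v :: l2 ++ [h]) = (h :: l1) ++ v :: (l2 ++ [h]) := by simp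
      rw [e1] at hc
      obtain ⟨h1, h2⟩ := List.isChain_split.1 hc
      have e2 : v :: (l2 ++ h :: l1 ++ [v]) = (v :: l2) ++ h :: (l1 ++ [v]) := by simp
      rw [e2]
      exact List.isChain_split.2 ⟨h2, h1⟩
    · have p : (v :: (l2 ++ h :: l1)).Perm (h :: (l1 ++ v :: l2)) := by
        have e3 : v :: (l2 ++ h :: l1) = (v :: l2) ++ (h :: l1) := by simp
        have e4 : h :: (l1 ++ v :: l2) = (h :: l1) ++ (v :: l2) := by simp
        rw [e3, e4]
        exact List.perm_append_comm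
      exact p.nodup_iff.2 hn
    · intro x
      simp only [List.mem_cons, List.mem_append]
      tauto

theorem cyc_of_fan {E : V → V → Prop} {F F' : V → V → V → Prop} (hle : ∀ u v w, F u v w → F' u v w)
    {x w y : V} (h : Fan E F x w y) (hf : F' w y x) (v : V) (hv : E w v) : Cyc E F' w v := by
  obtain ⟨l, h1, h2, h3, h4, h5, h6⟩ := h
  rcases l with _ | ⟨x0, t⟩
  · simp at h1
  · have hx : x0 = x := by simpa using h1
    subst hx
    have hc : (x0 :: (t ++ [x0])).IsChain (F' w) := by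
      have e : x0 :: (t ++ [x0]) = (x0 :: t) ++ [x0] := by simp
      rw [e, List.isChain_append]
      refine ⟨chain_mono (hle w) h3, by simp, ?_⟩
      intro u hu s hs
      have h7 : u = y := by
        rw [h2] at hu
        exact (Option.some.inj hu).symm
      have h8 : s = x0 := by simpa using hs.symm
      rw [h7, h8]
      exact hf
    obtain ⟨l, k1, k2, k3⟩ := cyc_start hc h4 ((h5 v).1 hv)
    exact ⟨l, k1, k2, fun u => (h5 u).trans (k3 u).symm⟩

theorem fF_le {a b c : V} {F : V → V → V → Prop} (u v w : V) (h : F u v w) : fF a b c F u v w :=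
  Or.inl h

theorem fcy : FcyStmt := by
  intro V _ a b c E F h z v hzv
  by_cases hz : z ∈ [a, c, b]
  · have hbd := h.bd
    obtain ⟨f1, f2, f3, -⟩ := hbd
    simp only [List.mem_cons, List.not_mem_nil, or_false] at hz
    rcases hz with rfl | rfl | rfl
    · exact cyc_of_fan fF_le f1 (Or.inr (Or.inl ⟨rfl, rfl, rfl⟩)) v hzv
    · exact cyc_of_fan fF_le f2 (Or.inr (Or.inr (Or.inl ⟨rfl, rfl, rfl⟩))) v hzv
    · exact cyc_of_fan fF_le f3 (Or.inr (Or.inr (Or.inr ⟨rfl, rfl, rfl⟩))) v hzv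
  · obtain ⟨l, k1, k2, k3⟩ := h.int z v hz hzv
    exact ⟨l, chain_mono (fF_le z) k1, k2, k3⟩

/-! ## The new outer face -/

theorem con3 {a b c u v : V} (h : Con [a, c, b] u v) : (u = a ∧ v = c) ∨ (u = c ∧ v = b) := by
  obtain ⟨P, Q, e⟩ := h
  rcases P with _ | ⟨p, _ | ⟨p', P⟩⟩
  · simp only [List.nil_append, List.cons.injEq] at e
    exact Or.inl ⟨e.1.symm, e.2.1.symm⟩
  · simp only [List.cons_append, List.nil_append, List.cons.injEq] at e
    exact Or.inr ⟨e.2.1.symm, e.2.2.1.symm⟩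
  · simp only [List.cons_append, List.cons.injEq] at e
    have h1 := congrArg List.length e.2.2
    simp only [List.length_cons, List.length_nil, List.length_append] at h1
    omega

section rfc
variable [Fintype V] {a b c : V} {E : V → V → Prop} {F : V → V → V → Prop}

theorem no_ac (h : NT a b [a, c, b] E F) (w : V) : ¬ F a c w :=
  ((H5.bn2 h).1 a c ⟨[], [b], rfl⟩).2 w

theorem no_cb (h : NT a b [a, c, b] E F) (w : V) : ¬ F c b w :=
  ((H5.bn2 h).1 c b ⟨[a], [], rfl⟩).2 w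

theorem no_ba (h : NT a b [a, c, b] E F) (w : V) : ¬ F b a w := (H5.bn2 h).2.2 w

theorem nd3 (h : NT a b [a, c, b] E F) : a ≠ c ∧ a ≠ b ∧ c ≠ b := by
  have := h.nd
  simp only [List.nodup_cons, List.mem_cons, List.not_mem_nil, or_false, not_or,
    List.nodup_nil, and_true, not_false_eq_true] at this
  exact ⟨this.1.1, this.1.2, this.2⟩

theorem fn1 (h : NT a b [a, c, b] E F) {u v w w' : V} (h1 : fF a b c F u v w)
    (h2 : fF a b c F u v w') : w = w' := by
  obtain ⟨n1, n2, n3⟩ := nd3 h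
  rcases h1 with h1 | ⟨rfl, rfl, rfl⟩ | ⟨rfl, rfl, rfl⟩ | ⟨rfl, rfl, rfl⟩
  · rcases h2 with h2 | ⟨rfl, rfl, rfl⟩ | ⟨rfl, rfl, rfl⟩ | ⟨rfl, rfl, rfl⟩
    · exact h.fn _ _ _ _ h1 h2
    · exact absurd h1 (no_ac h w)
    · exact absurd h1 (no_cb h w)
    · exact absurd h1 (no_ba h w)
  · rcases h2 with h2 | ⟨_, _, h2⟩ | ⟨h2, _, _⟩ | ⟨h2, _, _⟩
    · exact absurd h2 (no_ac h w')
    · exact h2.symm
    · exact absurd h2 n1
    · exact absurd h2 n2
  · rcases h2 with h2 | ⟨h2, _, _⟩ | ⟨_, _, h2⟩ | ⟨h2, _, _⟩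
    · exact absurd h2 (no_cb h w')
    · exact absurd h2.symm n1
    · exact h2.symm
    · exact absurd h2 n3
  · rcases h2 with h2 | ⟨h2, _, _⟩ | ⟨h2, _, _⟩ | ⟨_, _, h2⟩
    · exact absurd h2 (no_ba h w')
    · exact absurd h2.symm n2
    · exact absurd h2.symm n3
    · exact h2.symm

theorem rot1 (h : NT a b [a, c, b] E F) {u v w : V} (h1 : fF a b c F u v w) :
    fF a b c F v w u := by
  rcases h1 with h1 | ⟨rfl, rfl, rfl⟩ | ⟨rfl, rfl, rfl⟩ | ⟨rfl, rfl, rfl⟩
  · exact Or.inl (h.rot _ _ _ h1)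
  · exact Or.inr (Or.inr (Or.inl ⟨rfl, rfl, rfl⟩))
  · exact Or.inr (Or.inr (Or.inr ⟨rfl, rfl, rfl⟩))
  · exact Or.inr (Or.inl ⟨rfl, rfl, rfl⟩)

theorem fe1 (h : NT a b [a, c, b] E F) {u v w : V} (h1 : fF a b c F u v w) : E u v := by
  rcases h1 with h1 | ⟨rfl, rfl, rfl⟩ | ⟨rfl, rfl, rfl⟩ | ⟨rfl, rfl, rfl⟩
  · exact h.fe _ _ _ h1
  · exact ((H5.bn2 h).1 u v ⟨[], [w], rfl⟩).1
  · exact ((H5.bn2 h).1 u v ⟨[w], [], rfl⟩).1
  · exact (H5.bn2 h).2.1

theorem ex1 (h : NT a b [a, c, b] E F) {u v : V} (he : E u v) : ∃ w, fF a b c F u v w := by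
  by_cases hw : ∃ w, F u v w
  · obtain ⟨w, hw⟩ := hw
    exact ⟨w, Or.inl hw⟩
  · push Not at hw
    rcases H77.bnd h u v he hw with h1 | ⟨rfl, rfl⟩
    · rcases con3 h1 with ⟨rfl, rfl⟩ | ⟨rfl, rfl⟩
      · exact ⟨b, Or.inr (Or.inl ⟨rfl, rfl, rfl⟩)⟩
      · exact ⟨a, Or.inr (Or.inr (Or.inl ⟨rfl, rfl, rfl⟩))⟩
    · exact ⟨c, Or.inr (Or.inr (Or.inr ⟨rfl, rfl, rfl⟩))⟩

omit [Fintype V] in
theorem dF_rot (G : V → V → V → Prop) (x y z : V) : dF G y z x = dF G x y z := by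
  funext u v w
  apply propext
  unfold dF
  tauto

omit [Fintype V] in
theorem chain_ne {R : V → V → Prop} {y : V} : ∀ l : List V, (l ++ [y]).IsChain R → y ∉ l →
    (l ++ [y]).IsChain (fun u v => R u v ∧ u ≠ y)
  | [], _, _ => by simp
  | [u], h, hn => by
    simp only [List.cons_append, List.nil_append, List.isChain_cons_cons] at h ⊢
    refine ⟨⟨h.1, ?_⟩, by simp⟩
    rintro rfl
    exact hn (by simp)
  | u :: u' :: t, h, hn => by
    simp only [List.cons_append, List.isChain_cons_cons] at h ⊢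
    refine ⟨⟨h.1, ?_⟩, ?_⟩
    · rintro rfl
      exact hn (by simp)
    · exact chain_ne (u' :: t) h.2 (fun hm => hn (List.mem_cons_of_mem _ hm))

theorem fan_x (h : NT a b [a, c, b] E F) {x y z : V} (hf : fF a b c F x y z) :
    Fan E (dF (fF a b c F) x y z) z x y := by
  have exy := fe1 h hf
  have eyz := fe1 h (rot1 h hf)
  have ezx := fe1 h (rot1 h (rot1 h hf))
  have nxy : x ≠ y := fun e => h.irr x (by rw [← e] at exy; exact exy)
  have nyz : y ≠ z := fun e => h.irr y (by rw [← e] at eyz; exact eyz)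
  have nzx : z ≠ x := fun e => h.irr z (by rw [← e] at ezx; exact ezx)
  obtain ⟨l, h1, h2, h3⟩ := fcy h x y exy
  rcases l with _ | ⟨z0, l'⟩
  · exfalso
    simp only [List.nil_append, List.isChain_cons_cons] at h1
    exact nyz (fn1 h h1.1 hf)
  · have hz0 : z0 = z := by
      simp only [List.cons_append, List.isChain_cons_cons] at h1
      exact fn1 h h1.1 hf
    subst hz0
    have hyl : y ∉ z0 :: l' := (List.nodup_cons.1 h2).1
    have h4 : ((z0 :: l') ++ [y]).IsChain (fF a b c F x) := by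
      simp only [List.cons_append, List.isChain_cons_cons] at h1
      exact h1.2
    refine ⟨(z0 :: l') ++ [y], by simp, List.getLast?_concat, ?_, ?_, ?_, ?_⟩
    · refine (chain_ne _ h4 hyl).imp ?_
      rintro u v ⟨k1, k2⟩
      refine ⟨k1, ?_⟩
      rintro (⟨-, k⟩ | ⟨k, -⟩ | ⟨k, -⟩)
      · exact k2 k
      · exact nxy k
      · exact nzx k.symm
    · have p : ((z0 :: l') ++ [y]).Perm ([y] ++ (z0 :: l')) := List.perm_append_comm
      exact p.nodup_iff.2 h2
    · intro u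
      rw [h3 u]
      simp only [List.mem_cons, List.mem_append]
      tauto
    · rintro t ⟨-, k⟩
      exact k (Or.inl ⟨rfl, rfl⟩)

theorem rfc : RfcStmt := by
  classical
  intro V _ a b c E F h x y z hF
  have hf : fF a b c F x y z := Or.inl hF
  have exy := fe1 h hf
  have eyz := fe1 h (rot1 h hf)
  have ezx := fe1 h (rot1 h (rot1 h hf))
  have nxy : x ≠ y := fun e => h.irr x (by rw [← e] at exy; exact exy)
  have nyz : y ≠ z := fun e => h.irr y (by rw [← e] at eyz; exact eyz)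
  have nzx : z ≠ x := fun e => h.irr z (by rw [← e] at ezx; exact ezx)
  have hk : ∀ t : ZMod 2, t + t = 0 := fun t => CharTwo.add_self_eq_zero t
  refine ⟨nzx.symm, ?_, rfl, rfl, h.sym, h.irr, ?_, ?_, ?_, ?_, ?_, ?_, ?_⟩
  · simp only [List.nodup_cons, List.mem_cons, List.not_mem_nil, or_false, not_or,
      List.nodup_nil, and_true, not_false_eq_true]
    exact ⟨⟨nxy, nzx.symm⟩, nyz⟩
  · rintro u v w ⟨k1, k2⟩
    refine ⟨rot1 h k1, ?_⟩
    have k3 := rot1 h k1
    rintro (⟨rfl, rfl⟩ | ⟨rfl, rfl⟩ | ⟨rfl, rfl⟩)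
    · exact k2 (Or.inr (Or.inr ⟨fn1 h k3 hf, rfl⟩))
    · exact k2 (Or.inl ⟨fn1 h k3 (rot1 h hf), rfl⟩)
    · exact k2 (Or.inr (Or.inl ⟨fn1 h k3 (rot1 h (rot1 h hf)), rfl⟩))
  · intro u v w w' k1 k2
    exact fn1 h k1.1 k2.1
  · intro u v w k1
    exact fe1 h k1.1
  · have f1 := fan_x h hf
    have f2 := fan_x h (rot1 h hf)
    have f3 := fan_x h (rot1 h (rot1 h hf))
    rw [dF_rot] at f2
    rw [dF_rot, dF_rot] at f3
    exact ⟨f1, f2, f3, trivial⟩
  · intro t v ht he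
    obtain ⟨l, k1, k2, k3⟩ := fcy h t v he
    simp only [List.mem_cons, List.not_mem_nil, or_false, not_or] at ht
    refine ⟨l, k1.imp ?_, k2, k3⟩
    intro u w k
    refine ⟨k, ?_⟩
    rintro (⟨k', -⟩ | ⟨k', -⟩ | ⟨k', -⟩)
    · exact ht.1 k'
    · exact ht.2.1 k'
    · exact ht.2.2 k'
  · intro Z hZ1 hZ2 hZ3
    obtain ⟨A, hA1, hA2, hA3⟩ := h.hom Z hZ1 hZ2 hZ3
    have a1 : A a c = 0 := hA2 a c (no_ac h)
    have a2 : A c b = 0 := hA2 c b (no_cb h)
    have a3 : A b a = 0 := hA2 b a (no_ba h)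
    refine ⟨fun u v => A u v + (if ∃ w, fF a b c F u v w then A x y else 0), ?_, ?_, ?_⟩
    · rintro u v w ⟨k1, -⟩
      have e1 : ∃ w, fF a b c F u v w := ⟨w, k1⟩
      have e2 : ∃ t, fF a b c F v w t := ⟨u, rot1 h k1⟩
      simp only [if_pos e1, if_pos e2]
      congr 1
      rcases k1 with k1 | ⟨rfl, rfl, rfl⟩ | ⟨rfl, rfl, rfl⟩ | ⟨rfl, rfl, rfl⟩
      · exact hA1 _ _ _ k1
      · rw [a1, a2]
      · rw [a2, a3]
      · rw [a3, a1]
    · intro u v k
      by_cases e1 : ∃ w, fF a b c F u v w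
      · simp only [if_pos e1]
        obtain ⟨w, hw⟩ := e1
        have k2 : (u = x ∧ v = y) ∨ (u = y ∧ v = z) ∨ (u = z ∧ v = x) := by
          by_contra hc
          exact k w ⟨hw, hc⟩
        have h5 : A x y = A y z := hA1 _ _ _ hF
        have h6 : A y z = A z x := hA1 _ _ _ (h.rot _ _ _ hF)
        rcases k2 with ⟨rfl, rfl⟩ | ⟨rfl, rfl⟩ | ⟨rfl, rfl⟩
        · exact hk _
        · rw [h5]; exact hk _
        · rw [h5, h6]; exact hk _
      · simp only [if_neg e1, add_zero]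
        exact hA2 u v (fun w hw => e1 ⟨w, Or.inl hw⟩)
    · intro u v
      rw [hA3 u v]
      by_cases he : E u v
      · have e1 := ex1 h he
        have e2 := ex1 h (h.sym _ _ he)
        simp only [if_pos e1, if_pos e2]
        have h7 := hk (A x y)
        have e : A u v + A x y + (A v u + A x y) = A u v + A v u + (A x y + A x y) := by ring
        rw [e, h7, add_zero]
      · have e1 : ¬ ∃ w, fF a b c F u v w := fun ⟨w, hw⟩ => he (fe1 h hw)
        have e2 : ¬ ∃ w, fF a b c F v u w := fun ⟨w, hw⟩ => he (h.sym _ _ (fe1 h hw))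
        simp only [if_neg e1, if_neg e2, add_zero]
  · intro u v he
    have hs : ∀ p q, Relation.ReflTransGen E p q → Relation.ReflTransGen E q p := by
      intro p q hpq
      induction hpq with
      | refl => exact Relation.ReflTransGen.refl
      | tail _ h2 ih => exact Relation.ReflTransGen.head (h.sym _ _ h2) ih
    exact (hs _ _ (h.con x y exy)).trans (h.con u v he)

end rfc

theorem rer : RerStmt := by
  intro V _ a b c E F h v hv
  obtain ⟨w, hw⟩ := hv
  obtain ⟨l, h1, h2, h3⟩ := fcy h v w hw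
  have h4 : ∃ t, fF a b c F v w t := by
    rcases l with _ | ⟨t, l'⟩
    · simp only [List.nil_append, List.isChain_cons_cons] at h1
      exact ⟨w, h1.1⟩
    · simp only [List.cons_append, List.isChain_cons_cons] at h1
      exact ⟨t, h1.1⟩
  obtain ⟨t, ht⟩ := h4
  have r1 := Pool.Agent.SGP.H77.rot h
  rcases ht with ht | ⟨rfl, rfl, rfl⟩ | ⟨rfl, rfl, rfl⟩ | ⟨rfl, rfl, rfl⟩
  · exact ⟨t, w, _, rfc h v w t ht⟩
  · exact ⟨t, w, F, h⟩
  · exact ⟨t, w, F, Pool.Agent.SGP.H77.rot r1⟩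
  · exact ⟨t, w, F, r1⟩

end Pool.Agent.SGL.H2
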